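import Pool.Agent.H242.GX.Stm

set_option autoImplicit false

/-! # GX-AREA: areas in the two coordinate systems -/

open Set Filter Topology
open scoped ContDiff

namespace Pool.Agent.H230.GX.AREA

open Pool.Agent.H242.GX

/-- the two expressions of `z × z'` -/
theorem cross (s c u w f u' w' : ℝ) (h : s ^ 2 + c ^ 2 = 1) :
    (u * s + w * c) * (-(u' * c + u * (-(s * f))) + (w' * s + w * (c * f))) -
      (-(u * c) + w * s) * ((u' * s + u * (c * f)) + (w' * c + w * (-(s * f)))) =
      u ^ 2 * f + u * w' - w * u' + w ^ 2 * f := by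
  linear_combination (u ^ 2 * f + u * w' - w * u' + w ^ 2 * f) * h

/-- derivatives of the coordinates of `u nu (f) + w e (f)` -/
theorem coord {u w f : ℝ → ℝ} {u' w' f' θ : ℝ} (hu : HasDerivAt u u' θ) (hw : HasDerivAt w w' θ)
    (hf : HasDerivAt f f' θ) :
    HasDerivAt (fun x => u x * Real.sin (f x) + w x * Real.cos (f x))
      ((u' * Real.sin (f θ) + u θ * (Real.cos (f θ) * f')) +
        (w' * Real.cos (f θ) + w θ * (-(Real.sin (f θ) * f')))) θ ∧
    HasDerivAt (fun x => -(u x * Real.cos (f x)) + w x * Real.sin (f x))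
      (-(u' * Real.cos (f θ) + u θ * (-(Real.sin (f θ) * f'))) +
        (w' * Real.sin (f θ) + w θ * (Real.cos (f θ) * f'))) θ := by
  have hs : HasDerivAt (fun x => Real.sin (f x)) (Real.cos (f θ) * f') θ := hf.sin
  have hc : HasDerivAt (fun x => Real.cos (f x)) (-(Real.sin (f θ) * f')) θ := by
    have := hf.cos
    rwa [neg_mul] at this
  exact ⟨(hu.mul hs).add (hw.mul hc), (hu.mul hc).neg.add (hw.mul hs)⟩

theorem gx_AREA : S_AREA := by
  intro p X Z hW T hT hTper
  have hp := hW.supp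
  have hp0 : Differentiable ℝ p := hp.smooth.differentiable (by simp)
  have hp1 : ContDiff ℝ ∞ (deriv p) := (contDiff_infty_iff_deriv.1 hp.smooth).2
  have hp1' : Differentiable ℝ (deriv p) := hp1.differentiable (by simp)
  have hp2 : ContDiff ℝ ∞ (deriv (deriv p)) := (contDiff_infty_iff_deriv.1 hp1).2
  have hT' : Differentiable ℝ T := hT.differentiable (by simp)
  have hXT : ContDiff ℝ ∞ (fun θ : ℝ => X (θ, T θ)) := hW.smX.comp (contDiff_id.prodMk hT)
  set φ : ℝ → ℝ := fun θ => (X (θ, T θ)).1 with hφ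
  set r : ℝ → ℝ := fun θ => (X (θ, T θ)).2 with hr
  set y : ℝ → ℝ := fun θ => r θ ^ 2 with hy
  have hφc : ContDiff ℝ ∞ φ := contDiff_fst.comp hXT
  have hrc : ContDiff ℝ ∞ r := contDiff_snd.comp hXT
  have hyc : ContDiff ℝ ∞ y := hrc.pow 2
  have hφd : Differentiable ℝ φ := hφc.differentiable (by simp)
  have hyd : Differentiable ℝ y := hyc.differentiable (by simp)
  have hφ' : Continuous (deriv φ) := (contDiff_infty_iff_deriv.1 hφc).2.continuous
  -- the product `p ρ` and its primitive
  have hq : Continuous fun x => p x * rho p x :=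
    hp.smooth.continuous.mul (hp.smooth.continuous.add hp2.continuous)
  set P : ℝ → ℝ := fun x => ∫ t in (0 : ℝ)..x, p t * rho p t with hP
  have hPd : ∀ x, HasDerivAt P (p x * rho p x) x := fun x =>
    hq.integral_hasStrictDerivAt 0 x |>.hasDerivAt
  -- periodicity
  have hp1per : ∀ α, deriv p (α + 2 * Real.pi) = deriv p α := by
    intro α
    rw [← deriv_comp_add_const]
    congr 1
    funext x
    exact hp.per x
  have hp2per : ∀ α, deriv (deriv p) (α + 2 * Real.pi) = deriv (deriv p) α := by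
    intro α
    rw [← deriv_comp_add_const]
    congr 1
    funext x
    exact hp1per x
  have hqper : Function.Periodic (fun x => p x * rho p x) (2 * Real.pi) := by
    intro x
    show p (x + 2 * Real.pi) * (p (x + 2 * Real.pi) + deriv (deriv p) (x + 2 * Real.pi)) =
      p x * (p x + deriv (deriv p) x)
    rw [hp.per, hp2per]
  have hper0 := hW.per 0 (T 0)
  have hT2 : T (2 * Real.pi) = T 0 := by
    have := hTper 0
    rwa [zero_add] at this
  have hφ2 : φ (2 * Real.pi) = φ 0 + 2 * Real.pi := by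
    have h1 := congrArg Prod.fst hper0
    rw [zero_add] at h1
    show (X (2 * Real.pi, T (2 * Real.pi))).1 = (X (0, T 0)).1 + 2 * Real.pi
    rw [hT2]
    exact h1
  have hy2 : y (2 * Real.pi) = y 0 := by
    have h1 := congrArg Prod.snd hper0
    rw [zero_add] at h1
    show (X (2 * Real.pi, T (2 * Real.pi))).2 ^ 2 = (X (0, T 0)).2 ^ 2
    rw [hT2]
    have h2 : (X (2 * Real.pi, T 0)).2 = (X (0, T 0)).2 := h1
    rw [h2]
  -- the relations
  have hre : ∀ θ, (p (φ θ) + y θ) * Real.sin (φ θ) + deriv p (φ θ) * Real.cos (φ θ) =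
      p θ * Real.sin θ + (deriv p θ + T θ) * Real.cos θ := by
    intro θ
    have h1 := congrArg Complex.re (hW.rel θ (T θ))
    simp only [Psi, gam, nu, e, Complex.add_re, Complex.real_smul, Complex.mul_re,
      Complex.ofReal_re, Complex.ofReal_im, zero_mul, sub_zero] at h1
    show (p (X (θ, T θ)).1 + (X (θ, T θ)).2 ^ 2) * Real.sin (X (θ, T θ)).1 +
      deriv p (X (θ, T θ)).1 * Real.cos (X (θ, T θ)).1 = _
    linear_combination h1
  have him : ∀ θ, -((p (φ θ) + y θ) * Real.cos (φ θ)) + deriv p (φ θ) * Real.sin (φ θ) =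
      -(p θ * Real.cos θ) + (deriv p θ + T θ) * Real.sin θ := by
    intro θ
    have h1 := congrArg Complex.im (hW.rel θ (T θ))
    simp only [Psi, gam, nu, e, Complex.add_im, Complex.real_smul, Complex.mul_im,
      Complex.ofReal_re, Complex.ofReal_im, zero_mul, add_zero] at h1
    show -((p (X (θ, T θ)).1 + (X (θ, T θ)).2 ^ 2) * Real.cos (X (θ, T θ)).1) +
      deriv p (X (θ, T θ)).1 * Real.sin (X (θ, T θ)).1 = _
    linear_combination h1
  -- the identity
  have key : ∀ θ, p (φ θ) * rho p (φ θ) * deriv φ θ +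
      (2 * rho p (φ θ) * y θ + y θ ^ 2) * deriv φ θ -
        (deriv (deriv p) (φ θ) * deriv φ θ * y θ + deriv p (φ θ) * deriv y θ) =
      p θ * rho p θ + (deriv p θ * T θ + p θ * deriv T θ) + T θ ^ 2 := by
    intro θ
    have dφ := (hφd θ).hasDerivAt
    have dy := (hyd θ).hasDerivAt
    have dT := (hT' θ).hasDerivAt
    have dpφ : HasDerivAt (fun x => p (φ x)) (deriv p (φ θ) * deriv φ θ) θ :=
      (hp0 (φ θ)).hasDerivAt.comp θ dφ
    have dp1φ : HasDerivAt (fun x => deriv p (φ x)) (deriv (deriv p) (φ θ) * deriv φ θ) θ :=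
      (hp1' (φ θ)).hasDerivAt.comp θ dφ
    have du : HasDerivAt (fun x => p (φ x) + y x) (deriv p (φ θ) * deriv φ θ + deriv y θ) θ :=
      dpφ.add dy
    have dw2 : HasDerivAt (fun x => deriv p x + T x) (deriv (deriv p) θ + deriv T θ) θ :=
      (hp1' θ).hasDerivAt.add dT
    obtain ⟨a1, b1⟩ := coord du dp1φ dφ
    obtain ⟨a2, b2⟩ := coord (hp0 θ).hasDerivAt dw2 (hasDerivAt_id θ)
    have ea := a1.unique (a2.congr_of_eventuallyEq (Eventually.of_forall fun x => hre x))
    have eb := b1.unique (b2.congr_of_eventuallyEq (Eventually.of_forall fun x => him x))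
    have c1 := cross (Real.sin (φ θ)) (Real.cos (φ θ)) (p (φ θ) + y θ) (deriv p (φ θ)) (deriv φ θ)
      (deriv p (φ θ) * deriv φ θ + deriv y θ) (deriv (deriv p) (φ θ) * deriv φ θ)
      (Real.sin_sq_add_cos_sq (φ θ))
    have c2 := cross (Real.sin θ) (Real.cos θ) (p θ) (deriv p θ + T θ) 1 (deriv p θ)
      (deriv (deriv p) θ + deriv T θ) (Real.sin_sq_add_cos_sq θ)
    rw [ea, eb, hre θ, him θ] at c1
    have c3 := c1.symm.trans c2
    simp only [rho]
    linear_combination c3
  -- integration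
  set Φ : ℝ → ℝ := fun θ => P θ + p θ * T θ - (P (φ θ) - deriv p (φ θ) * y θ) with hΦ
  have hΦd : ∀ θ, HasDerivAt Φ ((2 * rho p (φ θ) * y θ + y θ ^ 2) * deriv φ θ - T θ ^ 2) θ := by
    intro θ
    have dφ := (hφd θ).hasDerivAt
    have dPφ : HasDerivAt (fun x => P (φ x)) (p (φ θ) * rho p (φ θ) * deriv φ θ) θ :=
      (hPd (φ θ)).comp θ dφ
    have dp1φ : HasDerivAt (fun x => deriv p (φ x)) (deriv (deriv p) (φ θ) * deriv φ θ) θ :=
      (hp1' (φ θ)).hasDerivAt.comp θ dφ
    have h1 := ((hPd θ).add ((hp0 θ).hasDerivAt.mul (hT' θ).hasDerivAt)).sub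
      (dPφ.sub (dp1φ.mul (hyd θ).hasDerivAt))
    refine h1.congr_deriv ?_
    have h2 := key θ
    linear_combination h2.symm
  have hc1 : Continuous fun θ => (2 * rho p (φ θ) * y θ + y θ ^ 2) * deriv φ θ := by
    have h1 : Continuous fun θ => rho p (φ θ) :=
      (hp.smooth.continuous.add hp2.continuous).comp hφc.continuous
    exact (((continuous_const.mul h1).mul hyc.continuous).add (hyc.continuous.pow 2)).mul hφ'
  have hc2 : Continuous fun θ => T θ ^ 2 := hT.continuous.pow 2
  have h1 := intervalIntegral.integral_eq_sub_of_hasDerivAt (a := 0) (b := 2 * Real.pi)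
    (fun θ _ => hΦd θ) ((hc1.sub hc2).intervalIntegrable 0 (2 * Real.pi))
  rw [intervalIntegral.integral_sub (hc1.intervalIntegrable _ _) (hc2.intervalIntegrable _ _)] at h1
  have h2 : Φ (2 * Real.pi) - Φ 0 = 0 := by
    have e1 : p (2 * Real.pi) = p 0 := by
      have := hp.per 0
      rwa [zero_add] at this
    have e2 : P (φ 0 + 2 * Real.pi) - P (φ 0) = P (2 * Real.pi) - P 0 := by
      have e3 : P (φ 0 + 2 * Real.pi) - P (φ 0) =
          ∫ t in (φ 0)..(φ 0 + 2 * Real.pi), p t * rho p t := by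
        rw [hP]
        exact intervalIntegral.integral_interval_sub_left (hq.intervalIntegrable _ _)
          (hq.intervalIntegrable _ _)
      have e4 : P 0 = 0 := intervalIntegral.integral_same
      rw [e3, hqper.intervalIntegral_add_eq (φ 0) 0, zero_add, e4, sub_zero]
    simp only [hΦ]
    rw [hφ2, hy2, hp1per, e1, hT2]
    linear_combination -e2
  rw [h2] at h1
  exact sub_eq_zero.1 h1

end Pool.Agent.H230.GX.AREA
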